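import Pool.Agent.helper88.Telescope

namespace Pool.Agent.Results.MP_48d34c_nt.DivisibilityQ2

open Finset Pool.Agent.helper88

/-- the integers `4 b_n` (first sum) -/
def ZF (m : ℕ) : ℤ := ∑ k ∈ range (m + 1), tF m k
/-- the integers `d_n` (second sum) -/
def ZG (m : ℕ) : ℤ := ∑ k ∈ range (m + 1), tG m k

theorem VF_zero (N k : ℕ) (h : N < 2 * k) : VF N k = 0 := by
  unfold VF; rw [Nat.choose_eq_zero_of_lt (by omega)]; simp

theorem VG_zero (N k : ℕ) (h : N < k) : VG N k = 0 := by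
  unfold VG; rw [Nat.choose_eq_zero_of_lt (by omega)]; simp

/-- `S (2N) N = C(2N,N)`: value used for the `k = 0` boundary term. -/
theorem S_center (N : ℕ) : S (2 * N) N = ((2 * N).choose N : ℤ) := by
  induction N with
  | zero => simp [S_zero_right]
  | succ n ih =>
    have h1 := S_diag (2 * n) n
    have h2 := S_level (2 * n + 1) (n + 1)
    have h3 : ((n : ℤ) + 1) * ((2 * (n + 1)).choose (n + 1) : ℤ) = 2 * (2 * n + 1) * ((2 * n).choose n : ℤ) := by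
      have := Nat.succ_mul_centralBinom_succ n
      rw [Nat.centralBinom_eq_two_mul_choose, Nat.centralBinom_eq_two_mul_choose] at this
      exact_mod_cast this
    rw [ih] at h1
    push_cast at h1 h2
    have h4 : (2 * (n : ℤ) + 1) ≠ 0 := by positivity
    have h5 : ((n : ℤ) + 1) ≠ 0 := by positivity
    have h6 : S (2 * n + 1) (n + 1) = 2 * ((2 * n).choose n : ℤ) := by
      apply mul_left_cancel₀ h4
      linarith
    rw [h6] at h2
    apply mul_left_cancel₀ h5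
    rw [show 2 * (n + 1) = 2 * n + 1 + 1 by ring] at *
    linarith

theorem ZF_rec (m : ℕ) :
    (2 * (m : ℤ) + 3) ^ 3 * ZF (m + 1) =
      32 * ((m : ℤ) + 1) ^ 3 * ZF m + 4 * (PF (m + 1) * ((2 * (m + 1)).choose (m + 1) : ℤ) ^ 4) := by
  have hsum : ∑ k ∈ range (m + 2), ((2 * (m : ℤ) + 3) ^ 3 * tF (m + 1) k - 32 * ((m : ℤ) + 1) ^ 3 * tF m k) =
      4 * (HF (m + 1) 0 - HF (m + 1) (m + 2)) := by
    rw [sum_congr rfl (fun k _ => teleF m k), ← mul_sum, sum_range_sub']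
  rw [sum_sub_distrib, ← mul_sum, ← mul_sum] at hsum
  have e1 : ∑ k ∈ range (m + 2), tF m k = ZF m := by
    rw [sum_range_succ]
    have : tF m (m + 1) = 0 := by
      unfold tF; rw [Nat.choose_eq_zero_of_lt (show 2 * m + 2 < m + 2 * (m + 1) + 2 by omega)]; simp
    rw [this, add_zero]; rfl
  have e2 : HF (m + 1) (m + 2) = 0 := by
    unfold HF; rw [VF_zero _ _ (by omega)]; simp
  have e3 : HF (m + 1) 0 = PF (m + 1) * ((2 * (m + 1)).choose (m + 1) : ℤ) ^ 4 := by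
    unfold HF VF
    simp only [add_zero, mul_zero, Nat.cast_zero]
    rw [S_center]; push_cast; ring
  rw [e1, e2, e3] at hsum
  have e4 : ∑ k ∈ range (m + 2), tF (m + 1) k = ZF (m + 1) := rfl
  rw [e4] at hsum
  linarith

theorem ZG_rec (m : ℕ) :
    (2 * (m : ℤ) + 3) ^ 3 * ZG (m + 1) =
      2 ^ 17 * ((m : ℤ) + 1) ^ 3 * ZG m + PG (m + 1) * ((2 * (m + 1)).choose (m + 1) : ℤ) ^ 4 := by
  have hsum : ∑ k ∈ range (m + 2), ((2 * (m : ℤ) + 3) ^ 3 * tG (m + 1) k - 2 ^ 17 * ((m : ℤ) + 1) ^ 3 * tG m k) =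
      (HG (m + 1) 0 - HG (m + 1) (m + 2)) := by
    rw [sum_congr rfl (fun k _ => teleG m k), sum_range_sub']
  rw [sum_sub_distrib, ← mul_sum, ← mul_sum] at hsum
  have e1 : ∑ k ∈ range (m + 2), tG m k = ZG m := by
    rw [sum_range_succ]
    have : tG m (m + 1) = 0 := by
      unfold tG; rw [Nat.choose_eq_zero_of_lt (show 2 * m + 1 < m + (m + 1) + 1 by omega)]; simp
    rw [this, add_zero]; rfl
  have e2 : HG (m + 1) (m + 2) = 0 := by
    unfold HG; rw [VG_zero _ _ (by omega)]; simp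
  have e3 : HG (m + 1) 0 = PG (m + 1) * ((2 * (m + 1)).choose (m + 1) : ℤ) ^ 4 := by
    unfold HG VG
    simp only [add_zero, mul_zero, Nat.cast_zero]
    rw [S_center]; push_cast; ring
  rw [e1, e2, e3] at hsum
  have e4 : ∑ k ∈ range (m + 2), tG (m + 1) k = ZG (m + 1) := rfl
  rw [e4] at hsum
  linarith

theorem ZF_zero : ZF 0 = 4 := by decide
theorem ZG_zero : ZG 0 = 1 := by decide

/-- the sums of the problem, as integers -/
def A (n : ℕ) : ℤ :=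
  ∑ k ∈ range n, (21 * (k : ℤ) ^ 3 + 22 * (k : ℤ) ^ 2 + 8 * (k : ℤ) + 1) *
    ((2 * k).choose k : ℤ) ^ 7 * 256 ^ (n - 1 - k)
def B (n : ℕ) : ℤ :=
  ∑ k ∈ range n, (168 * (k : ℤ) ^ 3 + 76 * (k : ℤ) ^ 2 + 14 * (k : ℤ) + 1) *
    ((2 * k).choose k : ℤ) ^ 7 * 2 ^ (20 * (n - 1 - k))

theorem A_succ (n : ℕ) : A (n + 1) = 256 * A n + PF n * ((2 * n).choose n : ℤ) ^ 7 := by
  unfold A PF
  rw [sum_range_succ, mul_sum]
  congr 1
  · apply sum_congr rfl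
    intro k hk
    rw [mem_range] at hk
    rw [show n + 1 - 1 - k = (n - 1 - k) + 1 by omega, pow_succ]; ring
  · rw [show n + 1 - 1 - n = 0 by omega]; ring

theorem B_succ (n : ℕ) : B (n + 1) = 2 ^ 20 * B n + PG n * ((2 * n).choose n : ℤ) ^ 7 := by
  unfold B PG
  rw [sum_range_succ, mul_sum]
  congr 1
  · apply sum_congr rfl
    intro k hk
    rw [mem_range] at hk
    rw [show 20 * (n + 1 - 1 - k) = 20 * (n - 1 - k) + 20 by omega, pow_add]; ring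
  · rw [show 20 * (n + 1 - 1 - n) = 0 by omega]; ring

theorem central_step (n : ℕ) :
    ((n : ℤ) + 1) * ((2 * (n + 1)).choose (n + 1) : ℤ) = 2 * (2 * n + 1) * ((2 * n).choose n : ℤ) := by
  have := Nat.succ_mul_centralBinom_succ n
  rw [Nat.centralBinom_eq_two_mul_choose, Nat.centralBinom_eq_two_mul_choose] at this
  exact_mod_cast this

theorem A_eq (m : ℕ) :
    64 * A (m + 1) = 2 * ((m : ℤ) + 1) ^ 3 * ((2 * (m + 1)).choose (m + 1) : ℤ) ^ 3 * ZF m := by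
  induction m with
  | zero => rw [ZF_zero]; decide
  | succ m ih =>
    rw [A_succ]
    have h := ZF_rec m
    have hc := central_step (m + 1)
    set C := ((2 * (m + 1)).choose (m + 1) : ℤ) with hC
    set D := ((2 * (m + 1 + 1)).choose (m + 1 + 1) : ℤ) with hD
    push_cast at hc ih h ⊢
    have h3 : (((m : ℤ) + 1 + 1) * D) ^ 3 = (2 * (2 * ((m : ℤ) + 1) + 1) * C) ^ 3 := by rw [hc]
    calc 64 * (256 * A (m + 1) + PF ((m : ℤ) + 1) * C ^ 7)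
        = 256 * (64 * A (m + 1)) + 64 * PF ((m : ℤ) + 1) * C ^ 7 := by ring
      _ = 256 * (2 * ((m : ℤ) + 1) ^ 3 * C ^ 3 * ZF m) + 64 * PF ((m : ℤ) + 1) * C ^ 7 := by rw [ih]
      _ = 16 * C ^ 3 * (32 * ((m : ℤ) + 1) ^ 3 * ZF m + 4 * (PF ((m : ℤ) + 1) * C ^ 4)) := by ring
      _ = 16 * C ^ 3 * ((2 * (m : ℤ) + 3) ^ 3 * ZF (m + 1)) := by rw [h]
      _ = 2 * (2 * (2 * ((m : ℤ) + 1) + 1) * C) ^ 3 * ZF (m + 1) := by ring
      _ = 2 * ((m : ℤ) + 1 + 1) ^ 3 * D ^ 3 * ZF (m + 1) := by rw [← h3]; ring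

theorem B_eq (m : ℕ) :
    16 * B (m + 1) = 2 * ((m : ℤ) + 1) ^ 3 * ((2 * (m + 1)).choose (m + 1) : ℤ) ^ 3 * ZG m := by
  induction m with
  | zero => rw [ZG_zero]; decide
  | succ m ih =>
    rw [B_succ]
    have h := ZG_rec m
    have hc := central_step (m + 1)
    set C := ((2 * (m + 1)).choose (m + 1) : ℤ) with hC
    set D := ((2 * (m + 1 + 1)).choose (m + 1 + 1) : ℤ) with hD
    push_cast at hc ih h ⊢
    have h3 : (((m : ℤ) + 1 + 1) * D) ^ 3 = (2 * (2 * ((m : ℤ) + 1) + 1) * C) ^ 3 := by rw [hc]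
    calc 16 * (2 ^ 20 * B (m + 1) + PG ((m : ℤ) + 1) * C ^ 7)
        = 2 ^ 20 * (16 * B (m + 1)) + 16 * PG ((m : ℤ) + 1) * C ^ 7 := by ring
      _ = 2 ^ 20 * (2 * ((m : ℤ) + 1) ^ 3 * C ^ 3 * ZG m) + 16 * PG ((m : ℤ) + 1) * C ^ 7 := by rw [ih]
      _ = 16 * C ^ 3 * (2 ^ 17 * ((m : ℤ) + 1) ^ 3 * ZG m + PG ((m : ℤ) + 1) * C ^ 4) := by ring
      _ = 16 * C ^ 3 * ((2 * (m : ℤ) + 3) ^ 3 * ZG (m + 1)) := by rw [h]; norm_num
      _ = 2 * (2 * (2 * ((m : ℤ) + 1) + 1) * C) ^ 3 * ZG (m + 1) := by ring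
      _ = 2 * ((m : ℤ) + 1 + 1) ^ 3 * D ^ 3 * ZG (m + 1) := by rw [← h3]; ring

theorem two_dvd_central (m : ℕ) : (2 : ℤ) ∣ ((2 * (m + 1)).choose (m + 1) : ℤ) := by
  have h := Nat.two_dvd_centralBinom_succ m
  rw [Nat.centralBinom_eq_two_mul_choose] at h
  exact_mod_cast h

theorem pow_dvd_central (m : ℕ) : (16 : ℤ) ∣ ((2 * (m + 1)).choose (m + 1) : ℤ) ^ 4 := by
  have := pow_dvd_pow_of_dvd (two_dvd_central m) 4
  norm_num at this
  exact this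

theorem cop64 (m : ℕ) : IsCoprime (64 : ℤ) ((2 * (m : ℤ) + 3) ^ 3) := by
  have h : IsCoprime (2 : ℤ) (2 * (m : ℤ) + 3) := ⟨-(m : ℤ) - 1, 1, by ring⟩
  have := (h.pow_left (m := 6)).pow_right (n := 3)
  norm_num at this
  exact this

theorem cop16 (m : ℕ) : IsCoprime (16 : ℤ) ((2 * (m : ℤ) + 3) ^ 3) := by
  have h : IsCoprime (2 : ℤ) (2 * (m : ℤ) + 3) := ⟨-(m : ℤ) - 1, 1, by ring⟩
  have := (h.pow_left (m := 4)).pow_right (n := 3)
  norm_num at this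
  exact this

theorem ZF_even (m : ℕ) : (2 : ℤ) ∣ ZF m ∧ (64 : ℤ) ∣ ZF (m + 1) := by
  have step : ∀ m, (2 : ℤ) ∣ ZF m → (64 : ℤ) ∣ ZF (m + 1) := by
    intro m h2
    apply (cop64 m).dvd_of_dvd_mul_left
    rw [ZF_rec]
    apply dvd_add
    · obtain ⟨t, ht⟩ := h2
      rw [ht]; exact ⟨((m : ℤ) + 1) ^ 3 * t, by ring⟩
    · obtain ⟨t, ht⟩ := pow_dvd_central m
      rw [ht]; exact ⟨PF (m + 1) * t, by ring⟩
  induction m with
  | zero => exact ⟨by rw [ZF_zero]; norm_num, step 0 (by rw [ZF_zero]; norm_num)⟩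
  | succ m ih =>
    have h2 : (2 : ℤ) ∣ ZF (m + 1) := dvd_trans (by norm_num) ih.2
    exact ⟨h2, step _ h2⟩

theorem ZG_even (m : ℕ) : (16 : ℤ) ∣ ZG (m + 1) := by
  apply (cop16 m).dvd_of_dvd_mul_left
  rw [ZG_rec]
  apply dvd_add
  · exact ⟨2 ^ 13 * ((m : ℤ) + 1) ^ 3 * ZG m, by ring⟩
  · obtain ⟨t, ht⟩ := pow_dvd_central m
    rw [ht]; exact ⟨PG (m + 1) * t, by ring⟩

/-- **Q2.**  For every `n > 1`, the number `2 n^3 C(2n,n)^3` divides both sums. -/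
theorem result (n : ℕ) (hn : 1 < n) :
    2 * n ^ 3 * ((2 * n).choose n) ^ 3 ∣
        ∑ k ∈ Finset.range n, (21 * k ^ 3 + 22 * k ^ 2 + 8 * k + 1) * ((2 * k).choose k) ^ 7 *
          256 ^ (n - 1 - k) ∧
    2 * n ^ 3 * ((2 * n).choose n) ^ 3 ∣
        ∑ k ∈ Finset.range n, (168 * k ^ 3 + 76 * k ^ 2 + 14 * k + 1) * ((2 * k).choose k) ^ 7 *
          2 ^ (20 * (n - 1 - k)) := by
  obtain ⟨m, rfl⟩ : ∃ m, n = m + 1 + 1 := ⟨n - 2, by omega⟩
  constructor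
  · obtain ⟨t, ht⟩ := (ZF_even m).2
    have h := A_eq (m + 1)
    rw [ht] at h
    have h2 : A (m + 1 + 1) =
        2 * (((m + 1 : ℕ) : ℤ) + 1) ^ 3 * ((2 * (m + 1 + 1)).choose (m + 1 + 1) : ℤ) ^ 3 * t := by
      linarith
    have h3 : (2 * (((m + 1 + 1 : ℕ)) : ℤ) ^ 3 * ((2 * (m + 1 + 1)).choose (m + 1 + 1) : ℤ) ^ 3) ∣
        A (m + 1 + 1) := ⟨t, by rw [h2]; push_cast; ring⟩
    have h4 : A (m + 1 + 1) = ((∑ k ∈ Finset.range (m + 1 + 1), (21 * k ^ 3 + 22 * k ^ 2 + 8 * k + 1) *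
        ((2 * k).choose k) ^ 7 * 256 ^ (m + 1 + 1 - 1 - k) : ℕ) : ℤ) := by
      unfold A; push_cast; rfl
    rw [h4] at h3
    exact_mod_cast h3
  · obtain ⟨t, ht⟩ := ZG_even m
    have h := B_eq (m + 1)
    rw [ht] at h
    have h2 : B (m + 1 + 1) =
        2 * (((m + 1 : ℕ) : ℤ) + 1) ^ 3 * ((2 * (m + 1 + 1)).choose (m + 1 + 1) : ℤ) ^ 3 * t := by
      linarith
    have h3 : (2 * (((m + 1 + 1 : ℕ)) : ℤ) ^ 3 * ((2 * (m + 1 + 1)).choose (m + 1 + 1) : ℤ) ^ 3) ∣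
        B (m + 1 + 1) := ⟨t, by rw [h2]; push_cast; ring⟩
    have h4 : B (m + 1 + 1) = ((∑ k ∈ Finset.range (m + 1 + 1), (168 * k ^ 3 + 76 * k ^ 2 + 14 * k + 1) *
        ((2 * k).choose k) ^ 7 * 2 ^ (20 * (m + 1 + 1 - 1 - k)) : ℕ) : ℤ) := by
      unfold B; push_cast; rfl
    rw [h4] at h3
    exact_mod_cast h3

end Pool.Agent.Results.MP_48d34c_nt.DivisibilityQ2
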